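import Pool.Agent.E8helper8.EC.Stm

/-!
# Project EC: the equivariant line
-/

set_option autoImplicit false
set_option linter.unusedVariables false

open CategoryTheory Simplicial Opposite unitInterval

namespace Pool.Agent.E8helper73.EC

open Pool.Agent.E8helper8.EC

/-! ### pasting -/

theorem lf : LocallyFinite fun k : ℤ => Set.Icc (k : ℝ) (k + 1) := by
  intro x
  refine ⟨Set.Ioo (x - 1) (x + 1), Ioo_mem_nhds (by linarith) (by linarith), ?_⟩
  refine (Set.finite_Icc (⌊x⌋ - 3) (⌊x⌋ + 3)).subset ?_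
  rintro k ⟨y, ⟨h1, h2⟩, h3, h4⟩
  have h5 := Int.floor_le x
  have h6 := Int.lt_floor_add_one x
  constructor
  · have : ((⌊x⌋ - 3 : ℤ) : ℝ) ≤ (k : ℝ) := by push_cast; linarith
    exact_mod_cast this
  · have : (k : ℝ) ≤ ((⌊x⌋ + 3 : ℤ) : ℝ) := by push_cast; linarith
    exact_mod_cast this

theorem paste {Z : Type} [TopologicalSpace Z] (c : ℤ → C(I, Z)) (h : ∀ k, c k 1 = c (k + 1) 0) :
    ∃ g : C(ℝ, Z), ∀ (k : ℤ) (s : I), g (k + s) = c k s := by
  have hf : ∀ t : ℝ, Int.fract t ∈ I := fun t => ⟨Int.fract_nonneg t, (Int.fract_lt_one t).le⟩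
  let g : ℝ → Z := fun t => c ⌊t⌋ ⟨Int.fract t, hf t⟩
  have key : ∀ (k : ℤ) (s : I), g (k + s) = c k s := by
    intro k s
    by_cases hs : (s : ℝ) = 1
    · have hs1 : s = 1 := Subtype.ext hs
      subst hs1
      have e1 : ((k : ℝ) + ((1 : I) : ℝ)) = ((k + 1 : ℤ) : ℝ) := by push_cast; rfl
      rw [h k]
      show c ⌊(k : ℝ) + ((1 : I) : ℝ)⌋ ⟨Int.fract ((k : ℝ) + ((1 : I) : ℝ)), _⟩ = _
      congr 1
      · rw [e1, Int.floor_intCast]
      · refine Subtype.ext ?_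
        show Int.fract ((k : ℝ) + ((1 : I) : ℝ)) = 0
        rw [e1, Int.fract_intCast]
    · have hs1 : (s : ℝ) < 1 := lt_of_le_of_ne s.2.2 hs
      have hfl : ⌊(k : ℝ) + (s : ℝ)⌋ = k := by
        rw [Int.floor_eq_iff]
        exact ⟨by linarith [s.2.1], by linarith⟩
      show c ⌊(k : ℝ) + (s : ℝ)⌋ ⟨Int.fract ((k : ℝ) + (s : ℝ)), _⟩ = _
      congr 1
      · rw [hfl]
      · refine Subtype.ext ?_
        show Int.fract ((k : ℝ) + (s : ℝ)) = s
        unfold Int.fract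
        rw [hfl]
        ring
  have hcont : Continuous g := by
    refine lf.continuous ?_ (fun k => isClosed_Icc) fun k => ?_
    · rw [Set.iUnion_eq_univ_iff]
      intro t
      exact ⟨⌊t⌋, Int.floor_le t, (Int.lt_floor_add_one t).le⟩
    · have h1 : Continuous fun t : ℝ => c k (Set.projIcc (0 : ℝ) 1 zero_le_one (t - k)) :=
        (c k).continuous.comp (continuous_projIcc.comp (continuous_id.sub continuous_const))
      refine h1.continuousOn.congr fun t ht => ?_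
      have h2 : t - k ∈ Set.Icc (0 : ℝ) 1 := ⟨by linarith [ht.1], by linarith [ht.2]⟩
      simp only
      rw [Set.projIcc_of_mem zero_le_one h2, ← key k ⟨t - k, h2⟩]
      congr 1
      show t = (k : ℝ) + (t - k)
      ring
  exact ⟨⟨g, hcont⟩, key⟩

theorem paste' {Z : Type} [TopologicalSpace Z] (N : ℕ) (c : ∀ k : ℤ, |k| ≤ N → C(I, Z))
    (h : ∀ k hk hk', c k hk 1 = c (k + 1) hk' 0) :
    ∃ g : C(ℝ, Z), ∀ (k : ℤ) (hk : |k| ≤ N) (s : I), g (k + s) = c k hk s := by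
  have hN : |(N : ℤ)| ≤ N := by rw [abs_of_nonneg (Int.natCast_nonneg N)]
  have hN' : |(-(N : ℤ))| ≤ N := by rw [abs_neg]; exact hN
  have hl : ∀ {j j' : ℤ} (e : j = j') (hj : |j| ≤ N) (hj' : |j'| ≤ N) (s : I), c j hj s = c j' hj' s := by
    intro j j' e hj hj' s
    subst e
    rfl
  obtain ⟨g, hg⟩ := paste (fun k : ℤ => if hk : |k| ≤ N then c k hk else
    if 0 < k then ContinuousMap.const I (c N hN 1) else ContinuousMap.const I (c (-N) hN' 0))
    (fun k => by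
      by_cases h1 : |k| ≤ N
      · by_cases h2 : (abs (k + 1) : ℤ) ≤ N
        · rw [dif_pos h1, dif_pos h2]
          exact h k h1 h2
        · rw [abs_le] at h1 h2
          have hk : k = N := by omega
          rw [dif_pos (abs_le.2 h1), dif_neg (fun h3 => h2 (abs_le.1 h3)), if_pos (by omega)]
          exact hl hk _ _ _
      · by_cases h2 : (abs (k + 1) : ℤ) ≤ N
        · rw [abs_le] at h1 h2
          have hk : k + 1 = -N := by omega
          rw [dif_neg (fun h3 => h1 (abs_le.1 h3)), if_neg (by omega), dif_pos (abs_le.2 h2)]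
          exact (hl hk _ _ _).symm
        · rw [dif_neg h1, dif_neg h2]
          rw [abs_le] at h1 h2
          by_cases h3 : 0 < k
          · rw [if_pos h3, if_pos (by omega)]
            rfl
          · rw [if_neg h3, if_neg (by omega)]
            rfl)
  refine ⟨g, fun k hk s => ?_⟩
  rw [hg, dif_pos hk]

/-! ### the shifts -/

theorem rmap_comp {X Y Z : SSet.{0}} (f : X ⟶ Y) (g : Y ⟶ Z) (x : Rl X) :
    rmap (f ≫ g) x = rmap g (rmap f x) := by
  unfold rmap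
  rw [SSet.toTop.map_comp]
  rfl

variable {G : Type}

/-- the shift by `k` -/
def shK (u : G → G → ℤ) (k : ℤ) {S S' : Set (G × ℤ)} (h : ∀ v ∈ S, (v.1, v.2 + k) ∈ S') :
    Cv u S ⟶ Cv u S' :=
  vmap _ _ (fun v => (v.1, v.2 + k)) fun _ _ hv =>
    ⟨fun i j => by have := hv.1 i j; simp only [Function.comp]; omega, fun i => h _ (hv.2 i)⟩

theorem shK_sh (u : G → G → ℤ) (k : ℤ) {S : Set (G × ℤ)}
    (h : ∀ v ∈ S, (v.1, v.2 + k) ∈ (Set.univ : Set (G × ℤ)))
    (h' : ∀ v ∈ S, (v.1, v.2 + (k + 1)) ∈ (Set.univ : Set (G × ℤ))) :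
    shK u k h ≫ sh u 1 = shK u (k + 1) h' := by
  ext n v
  refine Subtype.ext (funext fun i => ?_)
  refine Prod.ext rfl ?_
  exact add_assoc _ _ _

theorem shK_inc (u : G → G → ℤ) (k : ℤ) {S S' : Set (G × ℤ)} (h : ∀ v ∈ S, (v.1, v.2 + k) ∈ S')
    (h' : ∀ v ∈ S, (v.1, v.2 + k) ∈ (Set.univ : Set (G × ℤ))) :
    shK u k h ≫ inc u (Set.subset_univ S') = shK u k h' := rfl

/-- the vertex -/
def vtx (u : G → G → ℤ) (hu : ∀ g, u g g = 0) (S : Set (G × ℤ)) (p : G × ℤ) (hp : p ∈ S) :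
    (Cv u S).obj (op ⦋0⦌) :=
  ⟨fun _ => p, fun _ _ => by rw [hu, sub_self], fun _ => hp⟩

theorem t_GG : S_GG := by
  intro hR G u hG hu hN
  obtain ⟨-, -, -, hR4⟩ := hR
  obtain ⟨g₀⟩ := hG
  obtain ⟨F', hF', hsub, hnull⟩ := hN {(g₀, 0), (g₀, 1)} (Set.toFinite _)
  obtain ⟨y, ⟨H⟩⟩ := hnull
  have x₀ : Dl 0 := Classical.arbitrary _
  set F : Set (G × ℤ) := {(g₀, 0), (g₀, 1)} with hF
  have m0 : (g₀, (0 : ℤ)) ∈ F := by simp [hF]
  have m1 : (g₀, (1 : ℤ)) ∈ F := by simp [hF]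
  let s0 := vtx u hu F (g₀, 0) m0
  let s1 := vtx u hu F (g₀, 1) m1
  let γ : Path (rmap (inc u hsub) (ch _ 0 s0 x₀)) (rmap (inc u hsub) (ch _ 0 s1 x₀)) :=
    (H.evalAt (ch _ 0 s0 x₀)).trans (H.evalAt (ch _ 0 s1 x₀)).symm
  have hcomp : ∀ (S' : Set (G × ℤ)) (k : ℤ) (h : ∀ v ∈ F', (v.1, v.2 + k) ∈ S')
      (h' : ∀ v ∈ F', (v.1, v.2 + (k + 1)) ∈ S'),
      rmap (shK u k h) (γ 1) = rmap (shK u (k + 1) h') (γ 0) := by
    intro S' k h h'
    rw [γ.target, γ.source, ← rmap_comp, ← rmap_comp, hR4, hR4]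
    have e : (shK u k h).app (op ⦋0⦌) ((inc u hsub).app (op ⦋0⦌) s1) =
        (shK u (k + 1) h').app (op ⦋0⦌) ((inc u hsub).app (op ⦋0⦌) s0) := by
      refine Subtype.ext (funext fun i => Prod.ext rfl ?_)
      show (1 : ℤ) + k = 0 + (k + 1)
      ring
    exact congrArg (fun s => ch (Cv u S') 0 s x₀) e
  have hun : ∀ (k : ℤ), ∀ v ∈ F', (v.1, v.2 + k) ∈ (Set.univ : Set (G × ℤ)) := fun _ _ _ => trivial
  obtain ⟨g, hg⟩ := paste (fun k : ℤ => (rmap (shK u k (hun k))).comp γ.toContinuousMap)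
    (fun k => hcomp Set.univ k (hun k) (hun (k + 1)))
  refine ⟨g, fun t => ?_, ?_⟩
  · have e1 : t = (⌊t⌋ : ℝ) + ((⟨Int.fract t, Int.fract_nonneg t, (Int.fract_lt_one t).le⟩ : I) : ℝ) :=
      (Int.floor_add_fract t).symm
    have e2 : t + 1 = ((⌊t⌋ + 1 : ℤ) : ℝ) +
        ((⟨Int.fract t, Int.fract_nonneg t, (Int.fract_lt_one t).le⟩ : I) : ℝ) := by
      push_cast
      have := Int.floor_add_fract t
      show t + 1 = (⌊t⌋ : ℝ) + 1 + Int.fract t
      linarith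
    rw [e2, hg]
    conv_rhs => rw [e1, hg]
    show rmap (shK u (⌊t⌋ + 1) _) _ = rmap (sh u 1) (rmap (shK u ⌊t⌋ _) _)
    rw [← rmap_comp, shK_sh u _ _ (hun (⌊t⌋ + 1))]
  · intro A _ _ r
    obtain ⟨B, hB⟩ := (isCompact_univ (X := A)).exists_bound_of_continuousOn r.continuous.continuousOn
    obtain ⟨M, hM⟩ := exists_nat_ge B
    have hr : ∀ a, |⌊r a⌋| ≤ (M : ℤ) := by
      intro a
      have h1 : |r a| ≤ M := by
        have := hB a trivial
        rw [Real.norm_eq_abs] at this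
        exact this.trans hM
      rw [abs_le] at h1 ⊢
      constructor
      · rw [Int.le_floor]
        push_cast
        exact h1.1
      · have h2 : (⌊r a⌋ : ℝ) ≤ M := (Int.floor_le _).trans h1.2
        exact_mod_cast h2
    let F'' : Set (G × ℤ) := ⋃ k ∈ Set.Icc (-(M : ℤ)) M, (fun v : G × ℤ => (v.1, v.2 + k)) '' F'
    have hfin : F''.Finite := (Set.finite_Icc _ _).biUnion fun k _ => hF'.image _
    have hk'' : ∀ k : ℤ, |k| ≤ M → ∀ v ∈ F', (v.1, v.2 + k) ∈ F'' := by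
      intro k hk v hv
      rw [abs_le] at hk
      exact Set.mem_biUnion hk ⟨v, hv, rfl⟩
    obtain ⟨g', hg'⟩ := paste' M
      (fun (k : ℤ) (hk : |k| ≤ M) => (rmap (shK u k (hk'' k hk))).comp γ.toContinuousMap)
      (fun k hk hk' => hcomp F'' k (hk'' k hk) (hk'' (k + 1) hk'))
    refine ⟨F'', hfin, g'.comp r, fun a => ?_⟩
    have e1 : r a = (⌊r a⌋ : ℝ) +
        ((⟨Int.fract (r a), Int.fract_nonneg _, (Int.fract_lt_one _).le⟩ : I) : ℝ) :=
      (Int.floor_add_fract _).symm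
    show g (r a) = rmap (inc u (Set.subset_univ F'')) (g' (r a))
    rw [e1, hg, hg' _ (hr a)]
    show rmap (shK u ⌊r a⌋ _) _ = rmap (inc u (Set.subset_univ F'')) (rmap (shK u ⌊r a⌋ _) _)
    rw [← rmap_comp]
    rfl

end Pool.Agent.E8helper73.EC
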